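import Pool.Agent.Helper37.EX3.T3ACount

/-!
# MP_2857a5_co : module T3A
-/

set_option autoImplicit false

open Finset
open scoped Classical

namespace OT

noncomputable section

variable {n : ℕ}

/-- The statistics. -/
def PTree.stat (T : PTree n) (Z F GS J : Finset (Fin n)) :
    (Bool × Bool) ⊕ (Bool × Bool) ⊕ Bool → Fin n → Bool × Bool → ℝ
  | Sum.inl l, i, s => if t3a_lab (T.sg i) (T.lev Z F i) s = l then 1 else 0
  | Sum.inr (Sum.inl l), i, s =>
      if i ∈ GS then (if t3a_lab (T.sg i) (T.lev Z F i) s = l.swap then 1 else 0) else 0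
  | Sum.inr (Sum.inr β), i, s =>
      if i ∈ J then (if t3a_own (T.lev Z F i) s = β then 1 else 0) else 0

theorem t3a_stat_le (T : PTree n) (Z F GS J : Finset (Fin n))
    (k : (Bool × Bool) ⊕ (Bool × Bool) ⊕ Bool) (i : Fin n) (s : Bool × Bool) :
    |T.stat Z F GS J k i s| ≤ 1 := by
  rcases k with l | l | β
  · simp only [PTree.stat]
    split_ifs <;> norm_num
  · simp only [PTree.stat]
    split_ifs <;> norm_num
  · simp only [PTree.stat]
    split_ifs <;> norm_num

/-- The ten inequalities. -/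
theorem t3a_stats (h : StAvg) (T : PTree n) (Z F GS J Jk : Finset (Fin n)) (μ x : ℝ)
    (hμ : 0 ≤ μ) (hx : 0 ≤ x) (hx' : x ≤ 1 / 2)
    (hm : ∀ B, (((univ.filter fun i => i ∉ Jk ∧ T.bl Z F i = B).card : ℕ) : ℝ) ≤
      μ ^ 2 / 40 * (n : ℝ))
    (hGS : GS ⊆ univ.filter (fun i => i ∉ Jk)) (hJ : J ⊆ univ.filter (fun i => i ∉ Jk)) :
    ∃ π : Fin n × Bool → Bool × Bool,
      (∀ l : Bool × Bool, |(((univ.filter fun i => i ∉ Jk ∧
          t3a_lab (T.sg i) (T.lev Z F i) (π (T.bl Z F i)) = l).card : ℕ) : ℝ) -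
        (if l.1 = l.2 then 1 / 2 - x else x) * ((univ.filter fun i => i ∉ Jk).card : ℝ)| ≤
          μ * (n : ℝ)) ∧
      (∀ l : Bool × Bool, |(((GS.filter fun i =>
          t3a_lab (T.sg i) (T.lev Z F i) (π (T.bl Z F i)) = l.swap).card : ℕ) : ℝ) -
        (if l.1 = l.2 then 1 / 2 - x else x) * (GS.card : ℝ)| ≤ μ * (n : ℝ)) ∧
      (∀ β : Bool, |(((J.filter fun i =>
          t3a_own (T.lev Z F i) (π (T.bl Z F i)) = β).card : ℕ) : ℝ) -
        1 / 2 * (J.card : ℝ)| ≤ μ * (n : ℝ)) := by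
  obtain ⟨π, hπ⟩ := t3a_avg h ((Bool × Bool) ⊕ (Bool × Bool) ⊕ Bool) Jk (T.bl Z F)
    (fun s => if s.2 = true then x else 1 / 2 - x) (μ ^ 2 / 40) (by positivity) hm
    (by intro s; split_ifs <;> linarith) (t3a_sum_w x) (T.stat Z F GS J)
    (t3a_stat_le T Z F GS J)
  have hcard : (Fintype.card ((Bool × Bool) ⊕ (Bool × Bool) ⊕ Bool) : ℝ) = 10 := by
    simp only [Fintype.card_sum, Fintype.card_prod, Fintype.card_bool]
    norm_num
  have habs : ∀ k, |∑ i ∈ univ.filter (fun i => i ∉ Jk), T.stat Z F GS J k i (π (T.bl Z F i)) -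
        ∑ i ∈ univ.filter (fun i => i ∉ Jk), ∑ s : Bool × Bool,
          (if s.2 = true then x else 1 / 2 - x) * T.stat Z F GS J k i s| ≤ μ * (n : ℝ) := by
    intro k
    apply abs_le_of_sq_le_sq _ (by positivity)
    refine (hπ k).trans (le_of_eq ?_)
    rw [hcard]
    ring
  refine ⟨π, ?_, ?_, ?_⟩
  · intro l
    have h1 := habs (Sum.inl l)
    have e1 : ∑ i ∈ univ.filter (fun i => i ∉ Jk),
        T.stat Z F GS J (Sum.inl l) i (π (T.bl Z F i)) =
        (((univ.filter fun i => i ∉ Jk ∧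
          t3a_lab (T.sg i) (T.lev Z F i) (π (T.bl Z F i)) = l).card : ℕ) : ℝ) := by
      simp only [PTree.stat]
      rw [Finset.sum_boole, Finset.filter_filter]
    have e2 : ∑ i ∈ univ.filter (fun i => i ∉ Jk), ∑ s : Bool × Bool,
          (if s.2 = true then x else 1 / 2 - x) * T.stat Z F GS J (Sum.inl l) i s =
        (if l.1 = l.2 then 1 / 2 - x else x) * ((univ.filter fun i => i ∉ Jk).card : ℝ) := by
      simp only [PTree.stat]
      rw [Finset.sum_congr rfl (fun i _ => t3a_sum_lab x (T.sg i) (T.lev Z F i) l),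
        Finset.sum_const, nsmul_eq_mul, mul_comm]
    rw [e1, e2] at h1
    exact h1
  · intro l
    have h1 := habs (Sum.inr (Sum.inl l))
    have e1 : ∑ i ∈ univ.filter (fun i => i ∉ Jk),
        T.stat Z F GS J (Sum.inr (Sum.inl l)) i (π (T.bl Z F i)) =
        (((GS.filter fun i =>
          t3a_lab (T.sg i) (T.lev Z F i) (π (T.bl Z F i)) = l.swap).card : ℕ) : ℝ) := by
      simp only [PTree.stat]
      rw [Finset.sum_ite_mem, Finset.inter_eq_right.2 hGS, Finset.sum_boole]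
    have e2 : ∑ i ∈ univ.filter (fun i => i ∉ Jk), ∑ s : Bool × Bool,
          (if s.2 = true then x else 1 / 2 - x) * T.stat Z F GS J (Sum.inr (Sum.inl l)) i s =
        (if l.1 = l.2 then 1 / 2 - x else x) * (GS.card : ℝ) := by
      have e3 : ∀ i, ∑ s : Bool × Bool,
          (if s.2 = true then x else 1 / 2 - x) * T.stat Z F GS J (Sum.inr (Sum.inl l)) i s =
          if i ∈ GS then (if l.1 = l.2 then 1 / 2 - x else x) else 0 := by
        intro i
        simp only [PTree.stat]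
        by_cases hi : i ∈ GS
        · simp only [if_pos hi]
          rw [t3a_sum_lab x (T.sg i) (T.lev Z F i) l.swap]
          simp only [Prod.fst_swap, Prod.snd_swap, eq_comm]
        · simp only [if_neg hi, mul_zero, Finset.sum_const_zero]
      rw [Finset.sum_congr rfl (fun i _ => e3 i), Finset.sum_ite_mem,
        Finset.inter_eq_right.2 hGS, Finset.sum_const, nsmul_eq_mul, mul_comm]
    rw [e1, e2] at h1
    exact h1
  · intro β
    have h1 := habs (Sum.inr (Sum.inr β))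
    have e1 : ∑ i ∈ univ.filter (fun i => i ∉ Jk),
        T.stat Z F GS J (Sum.inr (Sum.inr β)) i (π (T.bl Z F i)) =
        (((J.filter fun i =>
          t3a_own (T.lev Z F i) (π (T.bl Z F i)) = β).card : ℕ) : ℝ) := by
      simp only [PTree.stat]
      rw [Finset.sum_ite_mem, Finset.inter_eq_right.2 hJ, Finset.sum_boole]
    have e2 : ∑ i ∈ univ.filter (fun i => i ∉ Jk), ∑ s : Bool × Bool,
          (if s.2 = true then x else 1 / 2 - x) * T.stat Z F GS J (Sum.inr (Sum.inr β)) i s =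
        1 / 2 * (J.card : ℝ) := by
      have e3 : ∀ i, ∑ s : Bool × Bool,
          (if s.2 = true then x else 1 / 2 - x) * T.stat Z F GS J (Sum.inr (Sum.inr β)) i s =
          if i ∈ J then 1 / 2 else 0 := by
        intro i
        simp only [PTree.stat]
        by_cases hi : i ∈ J
        · simp only [if_pos hi]
          rw [t3a_sum_own x (T.lev Z F i) β]
        · simp only [if_neg hi, mul_zero, Finset.sum_const_zero]
      rw [Finset.sum_congr rfl (fun i _ => e3 i), Finset.sum_ite_mem,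
        Finset.inter_eq_right.2 hJ, Finset.sum_const, nsmul_eq_mul, mul_comm]
    rw [e1, e2] at h1
    exact h1

/-- Module T3A. -/
theorem x3_t3a (h1 : StCut) (h2 : StBD) (h3 : StAvg) : StT3A := by
  intro Δ d γ ε hγ hε
  obtain ⟨S, hS⟩ : ∃ S : ℕ, S = 5 * (Δ + 1) := ⟨_, rfl⟩
  obtain ⟨D, hD⟩ : ∃ D : ℝ, D = (Δ : ℝ) + 1 := ⟨_, rfl⟩
  have hD1 : 1 ≤ D := by rw [hD]; linarith [Nat.cast_nonneg (α := ℝ) Δ]
  have hD0 : 0 < D := by linarith
  have hSD : (S : ℝ) = 5 * D := by rw [hS, hD]; push_cast; ring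
  obtain ⟨σ', hσ'⟩ : ∃ σ' : ℝ, σ' = 1 / (2 * D * ((S : ℝ) + 1)) := ⟨_, rfl⟩
  have hS0 : (0 : ℝ) < (S : ℝ) + 1 := by positivity
  have hσ'0 : 0 < σ' := by rw [hσ']; positivity
  obtain ⟨σ, hσ⟩ : ∃ σ : ℝ, σ = min (γ * ε / 4) (σ' / 4) := ⟨_, rfl⟩
  have hσ0 : 0 < σ := by rw [hσ]; exact lt_min (by positivity) (by positivity)
  have hσ1 : σ ≤ γ * ε / 4 := by rw [hσ]; exact min_le_left _ _
  have hσ2 : σ ≤ σ' / 4 := by rw [hσ]; exact min_le_right _ _
  have hσ3 : (S : ℝ) + 1 ≤ 1 / σ := by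
    rw [le_div_iff₀ hσ0]
    have h4 : σ' ≤ 1 / ((S : ℝ) + 1) := by
      rw [hσ']
      apply one_div_le_one_div_of_le hS0
      have : 1 * ((S : ℝ) + 1) ≤ 2 * D * ((S : ℝ) + 1) :=
        mul_le_mul_of_nonneg_right (by linarith) hS0.le
      linarith
    calc ((S : ℝ) + 1) * σ ≤ ((S : ℝ) + 1) * (1 / ((S : ℝ) + 1)) := by
          apply mul_le_mul_of_nonneg_left _ hS0.le
          linarith
      _ = 1 := by field_simp
  refine ⟨σ, hσ0, ?_⟩
  intro η hη
  obtain ⟨μ, hμ⟩ : ∃ μ : ℝ, μ = min (min (η / 2) (γ * ε / 4)) (σ' / 4) := ⟨_, rfl⟩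
  have hμ0 : 0 < μ := by
    rw [hμ]; exact lt_min (lt_min (by positivity) (by positivity)) (by positivity)
  have hμ1 : μ ≤ η / 2 := by rw [hμ]; exact (min_le_left _ _).trans (min_le_left _ _)
  have hμ2 : μ ≤ γ * ε / 4 := by rw [hμ]; exact (min_le_left _ _).trans (min_le_right _ _)
  have hμ3 : μ ≤ σ' / 4 := by rw [hμ]; exact min_le_right _ _
  obtain ⟨ν, hν⟩ : ∃ ν : ℝ, ν = min (min (η / 2) (ε / (4 * (D + 2)))) (1 / (10 * D)) := ⟨_, rfl⟩
  have hν0 : 0 < ν := by
    rw [hν]; exact lt_min (lt_min (by positivity) (by positivity)) (by positivity)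
  have hν1 : ν ≤ η / 2 := by rw [hν]; exact (min_le_left _ _).trans (min_le_left _ _)
  have hν2 : ν ≤ ε / (4 * (D + 2)) := by rw [hν]; exact (min_le_left _ _).trans (min_le_right _ _)
  have hν3 : ν ≤ 1 / (10 * D) := by rw [hν]; exact min_le_right _ _
  have hν2' : (D + 2) * ν ≤ ε / 4 := by
    rw [le_div_iff₀ (by positivity)] at hν2
    linarith
  have hν3' : D * ν ≤ 1 / 10 := by
    rw [le_div_iff₀ (by positivity)] at hν3
    linarith
  obtain ⟨R, hR⟩ := exists_nat_gt (4 / ν)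
  have hR0 : (0 : ℝ) < R := lt_trans (by positivity) hR
  have hR1 : 1 ≤ R := by
    have : 0 < R := by exact_mod_cast hR0
    omega
  have hRν : 4 ≤ (R : ℝ) * ν := by
    rw [div_lt_iff₀ hν0] at hR
    linarith
  obtain ⟨C, N, hcut⟩ := h1 Δ (d + 4) (μ ^ 2 / (40 * R)) (ν / (4 * R)) (by positivity)
    (by positivity)
  refine ⟨C, max N (⌈4 * (D + 1) * |C| / ν⌉₊ + ⌈4 / ε⌉₊ + 6), ?_⟩
  intro n T hn hT hsnk x hx1 hx2 k k' k'' hk
  have hnN : N ≤ n := le_trans (le_max_left _ _) hn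
  have hn2 : ⌈4 * (D + 1) * |C| / ν⌉₊ + ⌈4 / ε⌉₊ + 6 ≤ n := le_trans (le_max_right _ _) hn
  obtain ⟨X, hX⟩ : ∃ X : ℝ, X = (n : ℝ) := ⟨_, rfl⟩
  have hX6 : 6 ≤ X := by
    rw [hX]
    have : 6 ≤ n := by omega
    exact_mod_cast this
  have hXC : 4 * (D + 1) * |C| ≤ ν * X := by
    have h4 : ⌈4 * (D + 1) * |C| / ν⌉₊ ≤ n := by omega
    have h5 : 4 * (D + 1) * |C| / ν ≤ X := by
      rw [hX]
      exact (Nat.le_ceil _).trans (by exact_mod_cast h4)
    rw [div_le_iff₀ hν0] at h5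
    linarith
  have hXε : 4 ≤ ε * X := by
    have h4 : ⌈4 / ε⌉₊ ≤ n := by omega
    have h5 : 4 / ε ≤ X := by
      rw [hX]
      exact (Nat.le_ceil _).trans (by exact_mod_cast h4)
    rw [div_le_iff₀ hε] at h5
    linarith
  obtain ⟨Z, G, hZC, -, hZ, hsep, -, -, hmass, hpre⟩ := hcut n T hnN hT
  obtain ⟨F₀, hF0, hF0R⟩ := h2 n R (T.pc Z) hR1 (t3a_pc_lt T Z)
  obtain ⟨P, hP⟩ : ∃ P : Finset (Fin n), P = Z.biUnion (T.ball 1) := ⟨_, rfl⟩
  obtain ⟨F, hF⟩ : ∃ F : Finset (Fin n), F = F₀ ∪ P := ⟨_, rfl⟩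
  have hPF : P ⊆ F := by rw [hF]; exact Finset.subset_union_right
  have hF0F : F₀ ⊆ F := by rw [hF]; exact Finset.subset_union_left
  have hZP : Z ⊆ P := by
    intro z hz
    rw [hP]
    exact Finset.mem_biUnion.2 ⟨z, hz, T.self_mem_ball 1 z⟩
  have hZF : Z ⊆ F := hZP.trans hPF
  obtain ⟨Jk, hJk⟩ : ∃ Jk : Finset (Fin n),
      Jk = univ.filter (fun i => i ∈ F ∨ ∃ y ∈ P, T.bl Z F i = (y, true)) := ⟨_, rfl⟩
  have hJkmem : ∀ i, i ∉ Jk → i ∉ F ∧ ∀ y ∈ P, T.bl Z F i ≠ (y, true) := by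
    intro i hi
    rw [hJk] at hi
    simp only [Finset.mem_filter, Finset.mem_univ, true_and, not_or, not_exists, not_and] at hi
    exact hi
  have hFJ : F ⊆ Jk := by
    intro i hi
    rw [hJk]
    simp [hi]
  -- masses
  have hm : ∀ B, (((univ.filter fun i => i ∉ Jk ∧ T.bl Z F i = B).card : ℕ) : ℝ) ≤
      μ ^ 2 / 40 * (n : ℝ) := by
    intro B
    have e1 : (univ.filter fun i => i ∉ Jk ∧ T.bl Z F i = B).card ≤
        (univ.filter fun i => i ∉ F ∧ T.bl Z F i = B).card := by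
      refine Finset.card_le_card ?_
      intro i hi
      simp only [Finset.mem_filter, Finset.mem_univ, true_and] at hi ⊢
      exact ⟨(hJkmem i hi.1).1, hi.2⟩
    have e2 : (univ.filter fun i => i ∉ F ∧ T.bl Z F i = B).card ≤
        (univ.filter fun j => j ∉ F ∧ T.ce Z j = B).card * R := by
      convert t3a_mass (T := T) (Z := Z) hF0F hF0R (fun q => q = B)
    have e3 : (univ.filter fun j => j ∉ F ∧ T.ce Z j = B).card ≤
        (univ.filter fun i => i ∉ Z ∧ T.ce Z i = B).card := by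
      refine Finset.card_le_card ?_
      intro i hi
      simp only [Finset.mem_filter, Finset.mem_univ, true_and] at hi ⊢
      exact ⟨fun hh => hi.1 (hZF hh), hi.2⟩
    have e4 := hmass B
    have e5 : (univ.filter fun i => i ∉ Jk ∧ T.bl Z F i = B).card ≤
        (univ.filter fun i => i ∉ Z ∧ T.ce Z i = B).card * R :=
      e1.trans (e2.trans (Nat.mul_le_mul_right _ e3))
    have e6 : (((univ.filter fun i => i ∉ Jk ∧ T.bl Z F i = B).card : ℕ) : ℝ) ≤
        ((univ.filter fun i => i ∉ Z ∧ T.ce Z i = B).card : ℝ) * R := by exact_mod_cast e5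
    calc (((univ.filter fun i => i ∉ Jk ∧ T.bl Z F i = B).card : ℕ) : ℝ)
        ≤ ((univ.filter fun i => i ∉ Z ∧ T.ce Z i = B).card : ℝ) * R := e6
      _ ≤ (μ ^ 2 / (40 * R) * (n : ℝ)) * R := mul_le_mul_of_nonneg_right e4 hR0.le
      _ = μ ^ 2 / 40 * (n : ℝ) := by field_simp
  -- the size of P
  have hPc : (P.card : ℝ) ≤ ν * X / 4 := by
    have e1 : P.card ≤ Z.card * (Δ + 2) := by
      rw [hP]
      refine Finset.card_biUnion_le_card_mul _ _ _ fun v _ => ?_
      have := T.card_ball hT 1 v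
      simpa using this
    have e2 : (P.card : ℝ) ≤ (Z.card : ℝ) * (D + 1) := by
      rw [hD]
      have : (P.card : ℝ) ≤ ((Z.card * (Δ + 2) : ℕ) : ℝ) := by exact_mod_cast e1
      push_cast at this
      linarith
    have e3 : (Z.card : ℝ) * (D + 1) ≤ |C| * (D + 1) :=
      mul_le_mul_of_nonneg_right (hZC.trans (le_abs_self C)) (by positivity)
    linarith
  -- the size of the junk
  have hJc : (Jk.card : ℝ) ≤ ν * X := by
    have e1 : Jk ⊆ F ∪ (univ.filter fun i => i ∉ F ∧ ∃ y ∈ P, T.bl Z F i = (y, true)) := by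
      intro i hi
      rw [hJk] at hi
      simp only [Finset.mem_filter, Finset.mem_univ, true_and] at hi
      by_cases hiF : i ∈ F
      · simp [hiF]
      · rw [Finset.mem_union]
        right
        simp only [Finset.mem_filter, Finset.mem_univ, true_and]
        exact ⟨hiF, hi.resolve_left hiF⟩
    have e2 := (Finset.card_le_card e1).trans (Finset.card_union_le _ _)
    have e3 : (univ.filter fun i => i ∉ F ∧ ∃ y ∈ P, T.bl Z F i = (y, true)).card ≤
        (univ.filter fun j => j ∉ F ∧ ∃ y ∈ P, T.ce Z j = (y, true)).card * R := by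
      convert t3a_mass (T := T) (Z := Z) hF0F hF0R (fun q => ∃ y ∈ P, q = (y, true))
    have e4 : (univ.filter fun j => j ∉ F ∧ ∃ y ∈ P, T.ce Z j = (y, true)).card ≤
        (univ.filter fun l => ∃ z ∈ Z, ∃ i ∈ T.ball 1 z, T.ce Z l = (i, true)).card := by
      refine Finset.card_le_card ?_
      intro l hl
      simp only [Finset.mem_filter, Finset.mem_univ, true_and] at hl ⊢
      obtain ⟨-, y, hy, hce⟩ := hl
      rw [hP] at hy
      obtain ⟨z, hz, hyz⟩ := Finset.mem_biUnion.1 hy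
      exact ⟨z, hz, y, hyz, hce⟩
    have e5 : F.card ≤ F₀.card + P.card := by rw [hF]; exact Finset.card_union_le _ _
    have e6 : (F₀.card : ℝ) * R ≤ X := by rw [hX]; exact_mod_cast hF0
    have e7 : (F₀.card : ℝ) ≤ ν * X / 4 := by
      have f1 : (F₀.card : ℝ) * 4 ≤ (F₀.card : ℝ) * (R * ν) :=
        mul_le_mul_of_nonneg_left hRν (Nat.cast_nonneg _)
      have f2 : (F₀.card : ℝ) * R * ν ≤ X * ν := mul_le_mul_of_nonneg_right e6 hν0.le
      have f3 : (F₀.card : ℝ) * (R * ν) = (F₀.card : ℝ) * R * ν := by ring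
      have f4 : X * ν = ν * X := by ring
      linarith
    have e8 : ((univ.filter fun i => i ∉ F ∧ ∃ y ∈ P, T.bl Z F i = (y, true)).card : ℝ) ≤
        ν * X / 4 := by
      have e9 : (univ.filter fun i => i ∉ F ∧ ∃ y ∈ P, T.bl Z F i = (y, true)).card ≤
          (univ.filter fun l => ∃ z ∈ Z, ∃ i ∈ T.ball 1 z, T.ce Z l = (i, true)).card * R :=
        e3.trans (Nat.mul_le_mul_right _ e4)
      have e10 : ((univ.filter fun i => i ∉ F ∧ ∃ y ∈ P, T.bl Z F i = (y, true)).card : ℝ) ≤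
          ((univ.filter fun l => ∃ z ∈ Z, ∃ i ∈ T.ball 1 z, T.ce Z l = (i, true)).card : ℝ) * R :=
        by exact_mod_cast e9
      calc ((univ.filter fun i => i ∉ F ∧ ∃ y ∈ P, T.bl Z F i = (y, true)).card : ℝ)
          ≤ _ := e10
        _ ≤ (ν / (4 * R) * (n : ℝ)) * R := mul_le_mul_of_nonneg_right hpre hR0.le
        _ = ν * X / 4 := by rw [hX]; field_simp
    have e11 : (Jk.card : ℝ) ≤ (F.card : ℝ) +
        ((univ.filter fun i => i ∉ F ∧ ∃ y ∈ P, T.bl Z F i = (y, true)).card : ℝ) := by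
      exact_mod_cast e2
    have e12 : (F.card : ℝ) ≤ (F₀.card : ℝ) + (P.card : ℝ) := by exact_mod_cast e5
    have : 0 < ν * X := by positivity
    linarith
  -- good sinks
  have hGSc : ε * X / 2 ≤ ((T.gs Jk).card : ℝ) := by
    have e1 := t3a_card_gs hT Jk
    have e2 : ((univ.filter fun v => T.Snk v).card : ℝ) ≤
        ((T.gs Jk).card : ℝ) + 1 + (D + 2) * (Jk.card : ℝ) := by
      have : ((univ.filter fun v => T.Snk v).card : ℝ) ≤
        (((T.gs Jk).card + 1 + (Δ + 3) * Jk.card : ℕ) : ℝ) := by exact_mod_cast e1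
      push_cast at this
      rw [hD]
      linarith
    have e3 : (D + 2) * (Jk.card : ℝ) ≤ ε / 4 * X := by
      calc (D + 2) * (Jk.card : ℝ) ≤ (D + 2) * (ν * X) :=
            mul_le_mul_of_nonneg_left hJc (by linarith)
        _ = ((D + 2) * ν) * X := by ring
        _ ≤ ε / 4 * X := mul_le_mul_of_nonneg_right hν2' (by linarith)
    rw [← hX] at hsnk
    linarith
  -- candidates
  have hcand : σ' * X * ((S : ℝ) + 1) ≤ ((T.cand Z P Jk S).card : ℝ) := by
    have e1 := t3a_nonsinks (T := T) hT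
    have e2 := t3a_card_cand T Z P Jk S
    have e3 := t3a_big T Z S
    obtain ⟨ns, hns⟩ : ∃ ns : ℝ, ns = ((univ.filter fun v => ¬ T.Snk v).card : ℝ) := ⟨_, rfl⟩
    obtain ⟨bg, hbg⟩ : ∃ bg : ℝ, bg = ((univ.filter fun i => S < (univ.filter fun l =>
      T.ce Z l = (i, true)).card).card : ℝ) := ⟨_, rfl⟩
    have f1 : X ≤ 1 + D * ns := by
      rw [hX, hD, hns]
      exact_mod_cast e1
    have f2 : ns ≤ ((T.cand Z P Jk S).card : ℝ) + (Jk.card : ℝ) + bg + (P.card : ℝ) := by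
      rw [hns, hbg]
      exact_mod_cast e2
    have f3 : bg * ((S : ℝ) + 1) ≤ X := by
      rw [hbg, hX]
      exact_mod_cast e3
    have hbg0 : 0 ≤ bg := by rw [hbg]; positivity
    have f4 : D * bg ≤ X / 5 := by
      rw [hSD] at f3
      have f10 : bg * (5 * D + 1) = 5 * (D * bg) + bg := by ring
      linarith
    have f5 : D * (Jk.card : ℝ) ≤ X / 10 := by
      calc D * (Jk.card : ℝ) ≤ D * (ν * X) := mul_le_mul_of_nonneg_left hJc hD0.le
        _ = (D * ν) * X := by ring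
        _ ≤ 1 / 10 * X := mul_le_mul_of_nonneg_right hν3' (by linarith)
        _ = X / 10 := by ring
    have f6 : D * (P.card : ℝ) ≤ X / 40 := by
      calc D * (P.card : ℝ) ≤ D * (ν * X / 4) := mul_le_mul_of_nonneg_left hPc hD0.le
        _ = (D * ν) * X / 4 := by ring
        _ ≤ (1 / 10 * X) / 4 := by
          have := mul_le_mul_of_nonneg_right hν3' (by linarith : (0 : ℝ) ≤ X)
          linarith
        _ = X / 40 := by ring
    have f7 : D * ns ≤ D * (((T.cand Z P Jk S).card : ℝ) + (Jk.card : ℝ) + bg + (P.card : ℝ)) :=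
      mul_le_mul_of_nonneg_left f2 hD0.le
    have f8 : X / 2 ≤ D * ((T.cand Z P Jk S).card : ℝ) := by
      have f10 : D * (((T.cand Z P Jk S).card : ℝ) + (Jk.card : ℝ) + bg + (P.card : ℝ)) =
        D * ((T.cand Z P Jk S).card : ℝ) + D * (Jk.card : ℝ) + D * bg + D * (P.card : ℝ) := by
        ring
      linarith
    have f9 : σ' * X * ((S : ℝ) + 1) = X / (2 * D) := by
      rw [hσ']
      field_simp
    rw [f9, div_le_iff₀ (by positivity)]
    linarith
  obtain ⟨j₀, hj1, hjS, hjc⟩ := t3a_pigeon T Z P Jk S (σ' * X) hcand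
  obtain ⟨J, hJ⟩ : ∃ J : Finset (Fin n),
      J = (T.cand Z P Jk S).filter fun i => T.inh Z i = j₀ := ⟨_, rfl⟩
  rw [← hJ] at hjc
  have hJmem : ∀ i ∈ J, i ∉ Jk ∧ (univ.filter fun l => T.ce Z l = (i, true)).card ≤ S ∧
      (∀ l, T.ce Z l = (i, true) → l ∉ P) ∧ T.inh Z i = j₀ := by
    intro i hi
    rw [hJ] at hi
    unfold PTree.cand at hi
    simp only [Finset.mem_filter, Finset.mem_univ, true_and] at hi
    exact ⟨hi.1.2.1, hi.1.2.2.1, hi.1.2.2.2, hi.2⟩
  have hx0 : 0 ≤ x := by linarith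
  obtain ⟨π, hπ1, hπ2, hπ3⟩ := t3a_stats h3 T Z F (T.gs Jk) J Jk μ x hμ0.le hx0 (by linarith) hm
    (by
      intro i hi
      unfold PTree.gs at hi
      simp only [Finset.mem_filter, Finset.mem_univ, true_and] at hi ⊢
      exact hi.2.2.1)
    (by
      intro i hi
      simp only [Finset.mem_filter, Finset.mem_univ, true_and]
      exact (hJmem i hi).1)
  obtain ⟨b, hb⟩ : ∃ b : Fin n → Bool, ∀ i, b i = T.rule Z P F (T.presc Z k k' k'') π i
      (T.eb Z (fun l => (π (l, false)).1) b i) :=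
    ⟨T.bb Z (fun l => (π (l, false)).1) (T.rule Z P F (T.presc Z k k' k'') π),
      fun i => t3a_bb i⟩
  have hlab : ∀ i, i ∉ Jk → b i = t3a_own (T.lev Z F i) (π (T.bl Z F i)) ∧
      T.lb Z (fun l => (π (l, false)).1) b i =
        t3a_lab (T.sg i) (T.lev Z F i) (π (T.bl Z F i)) := fun i hi =>
    (t3a_lb hPF hb (hJkmem i hi).1 (hJkmem i hi).2).2
  have hw01 : ∀ l : Bool × Bool, γ ≤ (if l.1 = l.2 then 1 / 2 - x else x) ∧
      (if l.1 = l.2 then 1 / 2 - x else x) ≤ 1 := by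
    intro l
    split_ifs <;> constructor <;> linarith
  refine ⟨Z, fun l => (π (l, false)).1, b, hZC, fun z hz => ⟨(hZ z hz).1, (hZ z hz).2.1⟩,
    fun y hy z hz hne hh => hsep y hy z hz hne (T.ball_mono (by omega) y hh), ?_, ?_, ?_, J, j₀,
    hj1, ?_, ?_, ?_⟩
  · refine t3a_special (F := F) hk hZ
      (fun y hy z hz hne hh => hsep y hy z hz hne (T.ball_mono (by omega) y hh)) ?_
    rw [← hP]
    exact hb
  · -- labels
    intro l
    have e0 := hπ1 l
    obtain ⟨hw1, hw2⟩ := hw01 l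
    obtain ⟨w, hw⟩ : ∃ w : ℝ, w = (if l.1 = l.2 then 1 / 2 - x else x) := ⟨_, rfl⟩
    rw [← hw] at e0 hw1 hw2 ⊢
    have hc : (univ.filter fun i => i ∉ Jk).card + Jk.card = n := by
      have := Finset.card_filter_add_card_filter_not (s := (univ : Finset (Fin n)))
        (fun i => i ∈ Jk)
      rw [Finset.card_univ, Fintype.card_fin] at this
      have h4 : (univ.filter fun i => i ∈ Jk) = Jk := by ext; simp
      rw [h4] at this
      omega
    have hc' : ((univ.filter fun i => i ∉ Jk).card : ℝ) = X - (Jk.card : ℝ) := by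
      have : ((univ.filter fun i => i ∉ Jk).card : ℝ) + (Jk.card : ℝ) = X := by
        rw [hX]; exact_mod_cast hc
      linarith
    have e1 : (univ.filter fun i => i ∉ Jk ∧
        t3a_lab (T.sg i) (T.lev Z F i) (π (T.bl Z F i)) = l).card ≤
        (univ.filter fun v => v ∉ Z ∧ T.lb Z (fun l => (π (l, false)).1) b v = l).card := by
      refine Finset.card_le_card ?_
      intro i hi
      simp only [Finset.mem_filter, Finset.mem_univ, true_and] at hi ⊢
      exact ⟨fun hh => hi.1 (hFJ (hZF hh)), by rw [(hlab i hi.1).2]; exact hi.2⟩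
    have e2 : (univ.filter fun v => v ∉ Z ∧ T.lb Z (fun l => (π (l, false)).1) b v = l).card ≤
        (univ.filter fun i => i ∉ Jk ∧
        t3a_lab (T.sg i) (T.lev Z F i) (π (T.bl Z F i)) = l).card + Jk.card := by
      refine (Finset.card_le_card ?_).trans (Finset.card_union_le _ _)
      intro i hi
      simp only [Finset.mem_filter, Finset.mem_univ, true_and] at hi
      by_cases hiJ : i ∈ Jk
      · simp [hiJ]
      · rw [Finset.mem_union]
        left
        simp only [Finset.mem_filter, Finset.mem_univ, true_and]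
        exact ⟨hiJ, by rw [← (hlab i hiJ).2]; exact hi.2⟩
    obtain ⟨q, hq⟩ : ∃ q : ℝ, q = ((univ.filter fun v => v ∉ Z ∧
      T.lb Z (fun l => (π (l, false)).1) b v = l).card : ℝ) := ⟨_, rfl⟩
    obtain ⟨A, hA⟩ : ∃ A : ℝ, A = ((univ.filter fun i => i ∉ Jk ∧
        t3a_lab (T.sg i) (T.lev Z F i) (π (T.bl Z F i)) = l).card : ℝ) := ⟨_, rfl⟩
    have f1 : A ≤ q := by rw [hA, hq]; exact_mod_cast e1
    have f2 : q ≤ A + (Jk.card : ℝ) := by rw [hA, hq]; exact_mod_cast e2
    rw [← hA, hc', ← hX] at e0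
    rw [← hq, ← hX]
    have hj0 : (0 : ℝ) ≤ (Jk.card : ℝ) := Nat.cast_nonneg _
    obtain ⟨e3, e4⟩ := abs_le.1 e0
    have f3 : w * (Jk.card : ℝ) ≤ (Jk.card : ℝ) := by
      have := mul_le_mul_of_nonneg_right hw2 hj0
      linarith
    have f4 : 0 ≤ w * (Jk.card : ℝ) := by
      apply mul_nonneg _ hj0
      linarith
    have f5 : μ * X ≤ η / 2 * X := mul_le_mul_of_nonneg_right hμ1 (by linarith)
    have f6 : ν * X ≤ η / 2 * X := mul_le_mul_of_nonneg_right hν1 (by linarith)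
    have f7 : w * (X - (Jk.card : ℝ)) = w * X - w * (Jk.card : ℝ) := by ring
    rw [f7] at e3 e4
    rw [abs_le]
    constructor <;> linarith
  · -- contexts
    intro l
    have e0 := hπ2 l
    obtain ⟨hw1, hw2⟩ := hw01 l
    obtain ⟨w, hw⟩ : ∃ w : ℝ, w = (if l.1 = l.2 then 1 / 2 - x else x) := ⟨_, rfl⟩
    rw [← hw] at e0 hw1 hw2
    have e1 : ((T.gs Jk).filter fun i =>
        t3a_lab (T.sg i) (T.lev Z F i) (π (T.bl Z F i)) = l.swap).card ≤
        (T.ctx Z (T.lb Z (fun l => (π (l, false)).1) b) l).card := by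
      refine Finset.card_le_card ?_
      intro t ht
      unfold PTree.gs at ht
      simp only [Finset.mem_filter, Finset.mem_univ, true_and] at ht
      obtain ⟨⟨ht0, hts, htJ, hty⟩, htl⟩ := ht
      exact t3a_ctx hPF hZF hb ht0 hts (hJkmem t htJ).1 (hJkmem t htJ).2
        (fun y hy => hJkmem y (hty y hy)) l (by rw [(hlab t htJ).2]; exact htl)
    have e2 : ((((T.gs Jk).filter fun i =>
        t3a_lab (T.sg i) (T.lev Z F i) (π (T.bl Z F i)) = l.swap).card : ℕ) : ℝ) ≤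
        ((T.ctx Z (T.lb Z (fun l => (π (l, false)).1) b) l).card : ℝ) := by exact_mod_cast e1
    obtain ⟨e3, -⟩ := abs_le.1 e0
    rw [← hX] at e3 ⊢
    have f1 : γ * (ε * X / 2) ≤ w * ((T.gs Jk).card : ℝ) :=
      mul_le_mul hw1 hGSc (by positivity) (by linarith)
    have f2 : μ * X ≤ γ * ε / 4 * X := mul_le_mul_of_nonneg_right hμ2 (by linarith)
    have f3 : σ * X ≤ γ * ε / 4 * X := mul_le_mul_of_nonneg_right hσ1 (by linarith)
    have f4 : γ * (ε * X / 2) = γ * ε / 4 * X + γ * ε / 4 * X := by ring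
    linarith
  · -- j₀ ≤ 1 / σ
    have : (j₀ : ℝ) ≤ (S : ℝ) + 1 := by exact_mod_cast hjS
    linarith
  · intro j hj
    obtain ⟨hjJ, hjs, hjl, hji⟩ := hJmem j hj
    refine ⟨hji, ?_, ?_⟩
    · have : ((univ.filter fun i => T.ce Z i = (j, true)).card : ℝ) ≤ (S : ℝ) := by
        exact_mod_cast hjs
      linarith
    · intro z hz
      constructor
      · intro hh
        exact hjJ (hFJ (hPF (by rw [hP]; exact Finset.mem_biUnion.2 ⟨z, hz, hh⟩)))
      · intro i hi hh
        exact hjl i hi (by rw [hP]; exact Finset.mem_biUnion.2 ⟨z, hz, hh⟩)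
  · intro β
    have e0 := hπ3 β
    have e1 : (J.filter fun i => t3a_own (T.lev Z F i) (π (T.bl Z F i)) = β) =
        (J.filter fun j => b j = β) := by
      apply Finset.filter_congr
      intro i hi
      rw [(hlab i (hJmem i hi).1).1]
    rw [e1] at e0
    obtain ⟨e3, -⟩ := abs_le.1 e0
    rw [← hX] at e3 ⊢
    have f2 : μ * X ≤ σ' / 4 * X := mul_le_mul_of_nonneg_right hμ3 (by linarith)
    have f3 : σ * X ≤ σ' / 4 * X := mul_le_mul_of_nonneg_right hσ2 (by linarith)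
    linarith

end

end OT
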