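import Pool.Agent.Helper37.EX3.T3ALab

/-!
# MP_2857a5_co : module T3A, counting
-/

set_option autoImplicit false

open Finset
open scoped Classical

namespace OT

noncomputable section

variable {n : ℕ}

theorem t3a_arc_nb {T : PTree n} {y t : Fin n} (h : T.Arc y t) : T.Nb y t := by
  rcases h with ⟨h0, hp, -⟩ | ⟨h0, hp, -⟩
  · exact Or.inl ⟨h0, hp⟩
  · exact Or.inr ⟨h0, hp⟩

theorem t3a_card_zero : (univ.filter fun t : Fin n => (t : ℕ) = 0).card ≤ 1 := by
  rw [Finset.card_le_one]
  intro a ha b hb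
  simp only [Finset.mem_filter, Finset.mem_univ, true_and] at ha hb
  exact Fin.ext (by omega)

/-- The good sinks. -/
def PTree.gs (T : PTree n) (Jk : Finset (Fin n)) : Finset (Fin n) :=
  univ.filter fun t => (t : ℕ) ≠ 0 ∧ T.Snk t ∧ t ∉ Jk ∧ ∀ y, T.Arc y t → y ∉ Jk

theorem t3a_card_gs {T : PTree n} {Δ : ℕ} (hT : T.Deg Δ) (Jk : Finset (Fin n)) :
    (univ.filter fun v => T.Snk v).card ≤ (T.gs Jk).card + 1 + (Δ + 3) * Jk.card := by
  have hsub : (univ.filter fun v => T.Snk v) ⊆
      ((T.gs Jk ∪ (univ.filter fun t : Fin n => (t : ℕ) = 0)) ∪ Jk) ∪ Jk.biUnion (T.ball 1) := by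
    intro t ht
    simp only [Finset.mem_filter, Finset.mem_univ, true_and] at ht
    by_cases h0 : (t : ℕ) = 0
    · simp [h0]
    by_cases hJ : t ∈ Jk
    · simp [hJ]
    by_cases hy : ∀ y, T.Arc y t → y ∉ Jk
    · rw [Finset.mem_union, Finset.mem_union, Finset.mem_union]
      left; left; left
      unfold PTree.gs
      simp only [Finset.mem_filter, Finset.mem_univ, true_and]
      exact ⟨h0, ht, hJ, hy⟩
    · push Not at hy
      obtain ⟨y, hyt, hyJ⟩ := hy
      rw [Finset.mem_union]
      right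
      exact Finset.mem_biUnion.2 ⟨y, hyJ, (t3a_arc_nb hyt).mem_ball⟩
  have h1 := Finset.card_le_card hsub
  have h2 : (Jk.biUnion (T.ball 1)).card ≤ Jk.card * (Δ + 2) := by
    refine Finset.card_biUnion_le_card_mul _ _ _ fun v _ => ?_
    have := T.card_ball hT 1 v
    simpa using this
  have h3 := Finset.card_union_le ((T.gs Jk ∪ (univ.filter fun t : Fin n => (t : ℕ) = 0)) ∪ Jk)
    (Jk.biUnion (T.ball 1))
  have h4 := Finset.card_union_le (T.gs Jk ∪ (univ.filter fun t : Fin n => (t : ℕ) = 0)) Jk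
  have h5 := Finset.card_union_le (T.gs Jk) (univ.filter fun t : Fin n => (t : ℕ) = 0)
  have h6 := t3a_card_zero (n := n)
  nlinarith

theorem t3a_nonsinks {T : PTree n} {Δ : ℕ} (hT : T.Deg Δ) :
    n ≤ 1 + (Δ + 1) * (univ.filter fun v => ¬ T.Snk v).card := by
  have h1 : (univ.filter fun t : Fin n => (t : ℕ) ≠ 0 ∧ T.Snk t).card ≤
      Δ * (univ.filter fun v => ¬ T.Snk v).card := by
    refine Finset.card_le_mul_card_image_of_maps_to (f := T.par) ?_ Δ ?_
    · intro t ht
      replace ht := (Finset.mem_filter.1 ht).2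
      refine Finset.mem_filter.2 ⟨Finset.mem_univ _, ?_⟩
      intro hs
      have hsg : T.sg t = true := by
        by_contra hsg
        have hsg' : T.sg t = false := by simpa using hsg
        exact ht.2 (T.par t) (Or.inr ⟨ht.1, rfl, hsg'⟩)
      exact hs t (Or.inl ⟨ht.1, rfl, hsg⟩)
    · intro v _
      refine (Finset.card_le_card ?_).trans (hT v)
      intro t ht
      simp only [Finset.mem_filter, Finset.mem_univ, true_and] at ht
      exact tb_mem_ch.2 ⟨ht.1.1, ht.2⟩
  have h2 : (univ : Finset (Fin n)) ⊆ ((univ.filter fun t : Fin n => (t : ℕ) ≠ 0 ∧ T.Snk t) ∪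
      (univ.filter fun t : Fin n => (t : ℕ) = 0)) ∪ (univ.filter fun v => ¬ T.Snk v) := by
    intro t _
    simp only [Finset.mem_union, Finset.mem_filter, Finset.mem_univ, true_and]
    tauto
  have h3 := Finset.card_le_card h2
  have h4 := Finset.card_union_le ((univ.filter fun t : Fin n => (t : ℕ) ≠ 0 ∧ T.Snk t) ∪
      (univ.filter fun t : Fin n => (t : ℕ) = 0)) (univ.filter fun v => ¬ T.Snk v)
  have h5 := Finset.card_union_le (univ.filter fun t : Fin n => (t : ℕ) ≠ 0 ∧ T.Snk t)
      (univ.filter fun t : Fin n => (t : ℕ) = 0)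
  have h6 := t3a_card_zero (n := n)
  rw [Finset.card_univ, Fintype.card_fin] at h3
  nlinarith

theorem t3a_big (T : PTree n) (Z : Finset (Fin n)) (S : ℕ) :
    (univ.filter fun i => S < (univ.filter fun l => T.ce Z l = (i, true)).card).card * (S + 1) ≤
      n := by
  have h1 : ∑ i ∈ (univ.filter fun i => S < (univ.filter fun l => T.ce Z l = (i, true)).card),
      (univ.filter fun l => T.ce Z l = (i, true)).card ≤ n := by
    rw [← Finset.card_biUnion]
    · refine (Finset.card_le_univ _).trans ?_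
      rw [Fintype.card_fin]
    · intro i _ j _ hij
      rw [Function.onFun, Finset.disjoint_left]
      intro l hl hl'
      simp only [Finset.mem_filter, Finset.mem_univ, true_and] at hl hl'
      rw [hl] at hl'
      exact hij (Prod.ext_iff.1 hl').1
  have h2 := Finset.card_nsmul_le_sum
    (univ.filter fun i => S < (univ.filter fun l => T.ce Z l = (i, true)).card)
    (fun i => (univ.filter fun l => T.ce Z l = (i, true)).card) (S + 1) (by
      intro i hi
      simp only [Finset.mem_filter, Finset.mem_univ, true_and] at hi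
      exact hi)
  rw [smul_eq_mul] at h2
  exact h2.trans h1

theorem t3a_inh_pos {T : PTree n} {Z : Finset (Fin n)} {i : Fin n} (h : ¬ T.Snk i) :
    1 ≤ T.inh Z i := by
  unfold PTree.inh
  by_cases hs : T.sg i = true
  · rw [if_pos hs, zero_add]
    unfold PTree.Snk at h
    push Not at h
    obtain ⟨y, hy⟩ := h
    rcases hy with ⟨hy0, hpy, hsy⟩ | ⟨-, -, hsi⟩
    · rw [Nat.one_le_iff_ne_zero, Ne, Finset.card_eq_zero, ← Ne, ← Finset.nonempty_iff_ne_empty]
      refine ⟨y, ?_⟩
      simp only [Finset.mem_filter, Finset.mem_univ, true_and]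
      refine ⟨?_, hsy⟩
      rw [t3a_ce_same (by
          rintro (h | ⟨-, h⟩)
          · exact hy0 h
          · rw [hsy] at h; simp at h) (by rw [hpy, hsy, hs]), hpy]
    · rw [hs] at hsi; simp at hsi
  · rw [if_neg hs]
    omega

theorem t3a_inh_le {T : PTree n} {Z : Finset (Fin n)} {i : Fin n} :
    T.inh Z i ≤ (univ.filter fun l => T.ce Z l = (i, true)).card + 1 := by
  unfold PTree.inh
  have h1 : (univ.filter fun l => T.ce Z l = (i, true) ∧ T.sg l = true).card ≤
      (univ.filter fun l => T.ce Z l = (i, true)).card := by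
    refine Finset.card_le_card ?_
    intro l hl
    simp only [Finset.mem_filter, Finset.mem_univ, true_and] at hl ⊢
    exact hl.1
  split_ifs <;> omega

/-- The candidates for the balancing set. -/
def PTree.cand (T : PTree n) (Z P Jk : Finset (Fin n)) (S : ℕ) : Finset (Fin n) :=
  univ.filter fun i => ¬ T.Snk i ∧ i ∉ Jk ∧
    (univ.filter fun l => T.ce Z l = (i, true)).card ≤ S ∧ ∀ l, T.ce Z l = (i, true) → l ∉ P

theorem t3a_card_cand (T : PTree n) (Z P Jk : Finset (Fin n)) (S : ℕ) :
    (univ.filter fun v => ¬ T.Snk v).card ≤ (T.cand Z P Jk S).card + Jk.card +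
      (univ.filter fun i => S < (univ.filter fun l => T.ce Z l = (i, true)).card).card +
      P.card := by
  have hsub : (univ.filter fun v => ¬ T.Snk v) ⊆ ((T.cand Z P Jk S ∪ Jk) ∪
      (univ.filter fun i => S < (univ.filter fun l => T.ce Z l = (i, true)).card)) ∪
      P.image (fun l => (T.ce Z l).1) := by
    intro i hi
    simp only [Finset.mem_filter, Finset.mem_univ, true_and] at hi
    by_cases hJ : i ∈ Jk
    · simp [hJ]
    by_cases hS : S < (univ.filter fun l => T.ce Z l = (i, true)).card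
    · rw [Finset.mem_union, Finset.mem_union]
      left; right
      simp only [Finset.mem_filter, Finset.mem_univ, true_and]
      exact hS
    by_cases hl : ∀ l, T.ce Z l = (i, true) → l ∉ P
    · rw [Finset.mem_union, Finset.mem_union, Finset.mem_union]
      left; left; left
      unfold PTree.cand
      simp only [Finset.mem_filter, Finset.mem_univ, true_and]
      exact ⟨hi, hJ, not_lt.1 hS, hl⟩
    · push Not at hl
      obtain ⟨l, hl1, hl2⟩ := hl
      rw [Finset.mem_union]
      right
      exact Finset.mem_image.2 ⟨l, hl2, by rw [hl1]⟩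
  have h1 := Finset.card_le_card hsub
  have h2 := Finset.card_union_le ((T.cand Z P Jk S ∪ Jk) ∪
      (univ.filter fun i => S < (univ.filter fun l => T.ce Z l = (i, true)).card))
      (P.image (fun l => (T.ce Z l).1))
  have h3 := Finset.card_union_le (T.cand Z P Jk S ∪ Jk)
      (univ.filter fun i => S < (univ.filter fun l => T.ce Z l = (i, true)).card)
  have h4 := Finset.card_union_le (T.cand Z P Jk S) Jk
  have h5 : (P.image (fun l => (T.ce Z l).1)).card ≤ P.card := Finset.card_image_le
  omega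

theorem t3a_pigeon (T : PTree n) (Z P Jk : Finset (Fin n)) (S : ℕ) (c : ℝ)
    (hc : c * ((S : ℝ) + 1) ≤ ((T.cand Z P Jk S).card : ℝ)) :
    ∃ j₀ : ℕ, 1 ≤ j₀ ∧ j₀ ≤ S + 1 ∧
      c ≤ (((T.cand Z P Jk S).filter fun i => T.inh Z i = j₀).card : ℝ) := by
  obtain ⟨j₀, hj, hcj⟩ := Finset.exists_le_card_fiber_of_nsmul_le_card_of_maps_to
    (s := T.cand Z P Jk S) (t := Finset.Icc 1 (S + 1)) (f := fun i => T.inh Z i) (b := c)
    (by
      intro i hi
      unfold PTree.cand at hi
      simp only [Finset.mem_filter, Finset.mem_univ, true_and] at hi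
      rw [Finset.mem_Icc]
      refine ⟨t3a_inh_pos hi.1, ?_⟩
      have := t3a_inh_le (T := T) (Z := Z) (i := i)
      omega)
    ⟨1, by simp⟩ (by
      rw [Nat.card_Icc, nsmul_eq_mul]
      push_cast
      simpa [mul_comm] using hc)
  rw [Finset.mem_Icc] at hj
  exact ⟨j₀, hj.1, hj.2, hcj⟩

end

end OT
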