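import Pool.Agent.Helper20.EX3.Statements
import Pool.Agent.Helper62.EX.TB

/-!
# MP_2857a5_co : module T3A, blocks and bits
-/

set_option autoImplicit false

open Finset
open scoped Classical

namespace OT

noncomputable section

variable {n : ℕ}

theorem t3a_ce_fresh {T : PTree n} {Z : Finset (Fin n)} {i : Fin n}
    (h : (i : ℕ) = 0 ∨ (T.par i ∈ Z ∧ T.sg i = false)) : T.ce Z i = (i, false) := by
  rw [PTree.ce, dif_pos h]

theorem t3a_ce_same {T : PTree n} {Z : Finset (Fin n)} {i : Fin n}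
    (h : ¬ ((i : ℕ) = 0 ∨ (T.par i ∈ Z ∧ T.sg i = false))) (h' : T.sg i = T.sg (T.par i)) :
    T.ce Z i = (T.par i, true) := by
  rw [PTree.ce, dif_neg h, if_pos h']

theorem t3a_ce_diff {T : PTree n} {Z : Finset (Fin n)} {i : Fin n}
    (h : ¬ ((i : ℕ) = 0 ∨ (T.par i ∈ Z ∧ T.sg i = false))) (h' : T.sg i ≠ T.sg (T.par i)) :
    T.ce Z i = T.ce Z (T.par i) := by
  rw [PTree.ce, dif_neg h, if_neg h']

theorem t3a_ce_lt_aux (T : PTree n) (Z : Finset (Fin n)) : ∀ (m : ℕ) (i : Fin n), (i : ℕ) ≤ m →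
    (T.ce Z i).2 = true → (T.ce Z i).1 < i := by
  intro m
  induction m with
  | zero =>
    intro i hi h
    rw [t3a_ce_fresh (Or.inl (by omega))] at h
    simp at h
  | succ m ih =>
    intro i hi h
    by_cases h0 : (i : ℕ) = 0 ∨ (T.par i ∈ Z ∧ T.sg i = false)
    · rw [t3a_ce_fresh h0] at h
      simp at h
    · have hlt : T.par i < i := T.lt i (fun h => h0 (Or.inl h))
      by_cases h1 : T.sg i = T.sg (T.par i)
      · rw [t3a_ce_same h0 h1]
        exact hlt
      · rw [t3a_ce_diff h0 h1] at h ⊢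
        have hlt' : (T.par i : ℕ) < (i : ℕ) := hlt
        exact (ih (T.par i) (by omega) h).trans hlt

theorem t3a_ce_lt {T : PTree n} {Z : Finset (Fin n)} {i : Fin n} (h : (T.ce Z i).2 = true) :
    (T.ce Z i).1 < i := t3a_ce_lt_aux T Z (i : ℕ) i le_rfl h

/-- The block of the edge half of `i`. -/
def PTree.bl (T : PTree n) (Z F : Finset (Fin n)) (i : Fin n) : Fin n × Bool :=
  if h : (T.ce Z i).2 = true ∧ (T.ce Z i).1 ∉ F then T.bl Z F (T.ce Z i).1 else T.ce Z i
termination_by (i : ℕ)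
decreasing_by exact t3a_ce_lt h.1

/-- The parity of the level of the edge half of `i` in its block. -/
def PTree.lev (T : PTree n) (Z F : Finset (Fin n)) (i : Fin n) : Bool :=
  if h : (T.ce Z i).2 = true ∧ (T.ce Z i).1 ∉ F then !(T.lev Z F (T.ce Z i).1) else false
termination_by (i : ℕ)
decreasing_by exact t3a_ce_lt h.1

/-- Solution of `b i = φ i (eb i)`. -/
def PTree.bb (T : PTree n) (Z : Finset (Fin n)) (a : Fin n → Bool) (φ : Fin n → Bool → Bool)
    (i : Fin n) : Bool :=
  φ i (if h : (T.ce Z i).2 = true then T.bb Z a φ (T.ce Z i).1 else a (T.ce Z i).1)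
termination_by (i : ℕ)
decreasing_by exact t3a_ce_lt h

theorem t3a_bb {T : PTree n} {Z : Finset (Fin n)} {a : Fin n → Bool} {φ : Fin n → Bool → Bool}
    (i : Fin n) : T.bb Z a φ i = φ i (T.eb Z a (T.bb Z a φ) i) := by
  conv_lhs => rw [PTree.bb]
  unfold PTree.eb
  by_cases h : (T.ce Z i).2 = true
  · rw [dif_pos h, if_pos h]
  · rw [dif_neg h, if_neg h]

theorem t3a_bl_pos {T : PTree n} {Z F : Finset (Fin n)} {i : Fin n}
    (h : (T.ce Z i).2 = true ∧ (T.ce Z i).1 ∉ F) : T.bl Z F i = T.bl Z F (T.ce Z i).1 := by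
  rw [PTree.bl, dif_pos h]

theorem t3a_bl_neg {T : PTree n} {Z F : Finset (Fin n)} {i : Fin n}
    (h : ¬ ((T.ce Z i).2 = true ∧ (T.ce Z i).1 ∉ F)) : T.bl Z F i = T.ce Z i := by
  rw [PTree.bl, dif_neg h]

theorem t3a_lev_pos {T : PTree n} {Z F : Finset (Fin n)} {i : Fin n}
    (h : (T.ce Z i).2 = true ∧ (T.ce Z i).1 ∉ F) : T.lev Z F i = !(T.lev Z F (T.ce Z i).1) := by
  rw [PTree.lev, dif_pos h]

theorem t3a_lev_neg {T : PTree n} {Z F : Finset (Fin n)} {i : Fin n}
    (h : ¬ ((T.ce Z i).2 = true ∧ (T.ce Z i).1 ∉ F)) : T.lev Z F i = false := by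
  rw [PTree.lev, dif_neg h]

/-- The rule for the own bits. -/
def PTree.rule (T : PTree n) (Z P F : Finset (Fin n)) (pr : Fin n → Bool → Bool)
    (π : Fin n × Bool → Bool × Bool) (i : Fin n) (e : Bool) : Bool :=
  if i ∈ P then pr i e else if i ∈ F then (π (i, true)).1 else xor e (π (T.bl Z F i)).2

/-- The bits of the edge halves outside the blocks of `P`. -/
theorem t3a_eb {T : PTree n} {Z P F : Finset (Fin n)} {pr : Fin n → Bool → Bool}
    {π : Fin n × Bool → Bool × Bool} {b : Fin n → Bool} (hPF : P ⊆ F)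
    (hb : ∀ i, b i = T.rule Z P F pr π i (T.eb Z (fun l => (π (l, false)).1) b i)) :
    ∀ (m : ℕ) (i : Fin n), (i : ℕ) ≤ m → (∀ y ∈ P, T.bl Z F i ≠ (y, true)) →
      T.eb Z (fun l => (π (l, false)).1) b i =
        xor (π (T.bl Z F i)).1 ((π (T.bl Z F i)).2 && T.lev Z F i) := by
  intro m
  induction m with
  | zero =>
    intro i hi _
    have h0 : T.ce Z i = (i, false) := t3a_ce_fresh (Or.inl (by omega))
    rw [t3a_bl_neg (by simp [h0]), t3a_lev_neg (by simp [h0])]
    simp [PTree.eb, h0]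
  | succ m ih =>
    intro i hi hP
    by_cases h : (T.ce Z i).2 = true ∧ (T.ce Z i).1 ∉ F
    · have hlt : ((T.ce Z i).1 : ℕ) < (i : ℕ) := t3a_ce_lt h.1
      have hP' : ∀ y ∈ P, T.bl Z F (T.ce Z i).1 ≠ (y, true) := by
        rw [← t3a_bl_pos h]; exact hP
      have h1 := ih (T.ce Z i).1 (by omega) hP'
      have h2 : T.eb Z (fun l => (π (l, false)).1) b i = b (T.ce Z i).1 := by
        conv_lhs => rw [PTree.eb, if_pos h.1]
      rw [h2, hb (T.ce Z i).1, PTree.rule, if_neg (fun hh => h.2 (hPF hh)), if_neg h.2, h1,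
        t3a_bl_pos h, t3a_lev_pos h]
      cases (π (T.bl Z F (T.ce Z i).1)).1 <;> cases (π (T.bl Z F (T.ce Z i).1)).2 <;>
        cases T.lev Z F (T.ce Z i).1 <;> rfl
    · rw [t3a_bl_neg h] at hP ⊢
      rw [t3a_lev_neg h, Bool.and_false, Bool.xor_false]
      by_cases h2 : (T.ce Z i).2 = true
      · have hF : (T.ce Z i).1 ∈ F := by
          by_contra hF
          exact h ⟨h2, hF⟩
        have hPn : (T.ce Z i).1 ∉ P := by
          intro hh
          exact hP _ hh (Prod.ext rfl h2)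
        rw [PTree.eb, if_pos h2, hb, PTree.rule, if_neg hPn, if_pos hF]
        congr 2
        exact Prod.ext rfl h2.symm
      · rw [PTree.eb, if_neg h2]
        have h3 : (T.ce Z i).2 = false := by simpa using h2
        show (π ((T.ce Z i).1, false)).1 = _
        congr 2
        exact Prod.ext rfl h3.symm

/-- The label of a vertex as a function of the pattern of its block. -/
def t3a_lab (sg lev : Bool) (s : Bool × Bool) : Bool × Bool :=
  if sg then (xor s.1 (s.2 && lev), xor (xor s.1 (s.2 && lev)) s.2)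
  else (xor (xor s.1 (s.2 && lev)) s.2, xor s.1 (s.2 && lev))

/-- The own bit of a vertex as a function of the pattern of its block. -/
def t3a_own (lev : Bool) (s : Bool × Bool) : Bool := xor (xor s.1 (s.2 && lev)) s.2

theorem t3a_sum_lab (x : ℝ) (sg lev : Bool) (l : Bool × Bool) :
    ∑ s : Bool × Bool, (if s.2 = true then x else 1 / 2 - x) *
      (if t3a_lab sg lev s = l then (1 : ℝ) else 0) = if l.1 = l.2 then 1 / 2 - x else x := by
  obtain ⟨l1, l2⟩ := l
  cases sg <;> cases lev <;> cases l1 <;> cases l2 <;>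
    simp [Fintype.sum_prod_type, t3a_lab]

theorem t3a_sum_own (x : ℝ) (lev β : Bool) :
    ∑ s : Bool × Bool, (if s.2 = true then x else 1 / 2 - x) *
      (if t3a_own lev s = β then (1 : ℝ) else 0) = 1 / 2 := by
  cases lev <;> cases β <;> simp [Fintype.sum_prod_type, t3a_own]

theorem t3a_sum_w (x : ℝ) :
    ∑ s : Bool × Bool, (if s.2 = true then x else 1 / 2 - x) = 1 := by
  simp [Fintype.sum_prod_type]

end

end OT
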