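import Pool.Agent.Helper37.EX3.T3AMass

/-!
# MP_2857a5_co : module T3A, labels
-/

set_option autoImplicit false

open Finset
open scoped Classical

namespace OT

noncomputable section

variable {n : ℕ}

/-- Labels outside the junk. -/
theorem t3a_lb {T : PTree n} {Z P F : Finset (Fin n)} {pr : Fin n → Bool → Bool}
    {π : Fin n × Bool → Bool × Bool} {b : Fin n → Bool} (hPF : P ⊆ F)
    (hb : ∀ i, b i = T.rule Z P F pr π i (T.eb Z (fun l => (π (l, false)).1) b i))
    {i : Fin n} (hi : i ∉ F) (hi' : ∀ y ∈ P, T.bl Z F i ≠ (y, true)) :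
    T.eb Z (fun l => (π (l, false)).1) b i =
        xor (π (T.bl Z F i)).1 ((π (T.bl Z F i)).2 && T.lev Z F i) ∧
      b i = t3a_own (T.lev Z F i) (π (T.bl Z F i)) ∧
      T.lb Z (fun l => (π (l, false)).1) b i =
        t3a_lab (T.sg i) (T.lev Z F i) (π (T.bl Z F i)) := by
  have h1 := t3a_eb hPF hb (i : ℕ) i le_rfl hi'
  have h2 : b i = t3a_own (T.lev Z F i) (π (T.bl Z F i)) := by
    rw [hb i, PTree.rule, if_neg (fun hh => hi (hPF hh)), if_neg hi, h1]
    rfl
  refine ⟨h1, h2, ?_⟩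
  unfold PTree.lb t3a_lab
  rw [h1, h2]
  rfl

/-- The context of a good sink. -/
theorem t3a_ctx {T : PTree n} {Z P F : Finset (Fin n)} {pr : Fin n → Bool → Bool}
    {π : Fin n × Bool → Bool × Bool} {b : Fin n → Bool} (hPF : P ⊆ F) (hZF : Z ⊆ F)
    (hb : ∀ i, b i = T.rule Z P F pr π i (T.eb Z (fun l => (π (l, false)).1) b i))
    {t : Fin n} (ht0 : (t : ℕ) ≠ 0) (hs : T.Snk t) (ht : t ∉ F)
    (ht' : ∀ y ∈ P, T.bl Z F t ≠ (y, true))
    (hy : ∀ y, T.Arc y t → y ∉ F ∧ ∀ y' ∈ P, T.bl Z F y ≠ (y', true)) (l : Bool × Bool)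
    (hl : T.lb Z (fun l => (π (l, false)).1) b t = l.swap) :
    t ∈ T.ctx Z (T.lb Z (fun l => (π (l, false)).1) b) l := by
  have htZ : t ∉ Z := fun hh => ht (hZF hh)
  unfold PTree.ctx
  rw [Finset.mem_filter]
  refine ⟨Finset.mem_univ _, hs, htZ, hl, ?_⟩
  intro y hyt
  obtain ⟨hyF, hyP⟩ := hy y hyt
  have hyZ : y ∉ Z := fun hh => hyF (hZF hh)
  refine ⟨hyZ, ?_⟩
  have hsg : T.sg t = true := by
    by_contra hsg
    have hsg' : T.sg t = false := by simpa using hsg
    exact hs (T.par t) (Or.inr ⟨ht0, rfl, hsg'⟩)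
  obtain ⟨ht1, ht2, ht3⟩ := t3a_lb hPF hb ht ht'
  obtain ⟨hy1, hy2, hy3⟩ := t3a_lb hPF hb hyF hyP
  have hlt : T.lb Z (fun l => (π (l, false)).1) b t =
      (T.eb Z (fun l => (π (l, false)).1) b t, b t) := by
    unfold PTree.lb
    rw [if_pos hsg]
  have hbt : b t = xor (T.eb Z (fun l => (π (l, false)).1) b t) (π (T.bl Z F t)).2 := by
    rw [ht1, ht2]; rfl
  have hby : b y = xor (T.eb Z (fun l => (π (l, false)).1) b y) (π (T.bl Z F y)).2 := by
    rw [hy1, hy2]; rfl
  have hl' : l = (b t, T.eb Z (fun l => (π (l, false)).1) b t) := by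
    rw [hlt] at hl
    have := congrArg Prod.swap hl
    rw [Prod.swap_swap] at this
    exact this.symm
  rw [hl', hbt]
  rcases hyt with ⟨-, hpt, -⟩ | ⟨hy0, hpy, hsy⟩
  · -- y is the parent of t
    have hnf : ¬ ((t : ℕ) = 0 ∨ (T.par t ∈ Z ∧ T.sg t = false)) := by
      rintro (h | ⟨-, h⟩)
      · exact ht0 h
      · rw [hsg] at h; simp at h
    by_cases hsy : T.sg y = true
    · have hce : T.ce Z t = (y, true) := by
        rw [t3a_ce_same hnf (by rw [hpt, hsy, hsg]), hpt]
      have hbl : T.bl Z F t = T.bl Z F y := by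
        rw [t3a_bl_pos (by rw [hce]; exact ⟨rfl, hyF⟩), hce]
      have het : T.eb Z (fun l => (π (l, false)).1) b t = b y := by
        rw [PTree.eb, hce, if_pos rfl]
      unfold PTree.lb
      rw [if_pos hsy, het, hbl, hby]
      cases T.eb Z (fun l => (π (l, false)).1) b y <;> cases (π (T.bl Z F y)).2 <;> rfl
    · have hsy' : T.sg y = false := by simpa using hsy
      have hce : T.ce Z t = T.ce Z y := by
        rw [t3a_ce_diff hnf (by rw [hpt, hsy', hsg]; simp), hpt]
      have hbl : T.bl Z F t = T.bl Z F y := by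
        conv_lhs => rw [PTree.bl]
        conv_rhs => rw [PTree.bl]
        rw [hce]
      have het : T.eb Z (fun l => (π (l, false)).1) b t =
          T.eb Z (fun l => (π (l, false)).1) b y := by
        rw [PTree.eb, hce]
        rfl
      unfold PTree.lb
      rw [if_neg hsy, het, hbl, hby]
  · -- y is a child of t
    have hnf : ¬ ((y : ℕ) = 0 ∨ (T.par y ∈ Z ∧ T.sg y = false)) := by
      rintro (h | ⟨h, -⟩)
      · exact hy0 h
      · rw [hpy] at h; exact htZ h
    have hce : T.ce Z y = T.ce Z t := by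
      rw [t3a_ce_diff hnf (by rw [hpy, hsy, hsg]; simp), hpy]
    have hbl : T.bl Z F t = T.bl Z F y := by
      conv_lhs => rw [PTree.bl]
      conv_rhs => rw [PTree.bl]
      rw [hce]
    have het : T.eb Z (fun l => (π (l, false)).1) b t =
        T.eb Z (fun l => (π (l, false)).1) b y := by
      rw [PTree.eb, ← hce]
      rfl
    unfold PTree.lb
    rw [if_neg (by rw [hsy]; simp), het, hbl, hby]

/-- The rule for the own bits near the cut vertices. -/
def PTree.presc (T : PTree n) (Z : Finset (Fin n)) (k k' k'' : Bool × Bool) (i : Fin n)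
    (e : Bool) : Bool :=
  if i ∈ Z then k''.1
  else if (i : ℕ) ≠ 0 ∧ T.par i ∈ Z ∧ T.sg i = true then k''.2
  else if e = k.2 then k.1 else k'.1

/-- The labels of the neighbours of the cut vertices. -/
theorem t3a_special {T : PTree n} {Z F : Finset (Fin n)} {k k' k'' : Bool × Bool}
    {π : Fin n × Bool → Bool × Bool} {b : Fin n → Bool} (hk : k.2 ≠ k'.2)
    (hZ : ∀ z ∈ Z, (z : ℕ) ≠ 0 ∧ T.sg z = true ∧ (T.par z : ℕ) ≠ 0 ∧ T.sg (T.par z) = false)
    (hsep : ∀ y ∈ Z, ∀ z ∈ Z, y ≠ z → z ∉ T.ball 2 y)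
    (hb : ∀ i, b i = T.rule Z (Z.biUnion (T.ball 1)) F (T.presc Z k k' k'') π i
      (T.eb Z (fun l => (π (l, false)).1) b i)) :
    ∀ z ∈ Z, (∀ y, T.Arc y z → T.lb Z (fun l => (π (l, false)).1) b y = k ∨
        T.lb Z (fun l => (π (l, false)).1) b y = k') ∧
      ∀ y, T.Arc z y → T.lb Z (fun l => (π (l, false)).1) b y = k'' := by
  intro z hz
  obtain ⟨hz0, hzs, hzp0, hzps⟩ := hZ z hz
  have hP : ∀ y, T.Nb z y → y ∈ Z.biUnion (T.ball 1) := fun y hy =>
    Finset.mem_biUnion.2 ⟨z, hz, hy.mem_ball⟩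
  have hnZ : ∀ y, T.Nb z y → y ≠ z → y ∉ Z := by
    intro y hy hne hyZ
    exact hsep z hz y hyZ (Ne.symm hne) (T.ball_mono (by norm_num) z hy.mem_ball)
  have hin : ∀ y, T.Nb z y → y ≠ z → ¬ ((y : ℕ) ≠ 0 ∧ T.par y ∈ Z ∧ T.sg y = true) →
      T.sg y = false → T.lb Z (fun l => (π (l, false)).1) b y = k ∨
        T.lb Z (fun l => (π (l, false)).1) b y = k' := by
    intro y hy hne hc hsy
    have hby : b y = if T.eb Z (fun l => (π (l, false)).1) b y = k.2 then k.1 else k'.1 := by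
      rw [hb y, PTree.rule, if_pos (hP y hy), PTree.presc, if_neg (hnZ y hy hne), if_neg hc]
    unfold PTree.lb
    rw [if_neg (by rw [hsy]; simp), hby]
    by_cases he : T.eb Z (fun l => (π (l, false)).1) b y = k.2
    · left
      rw [if_pos he, he]
    · right
      rw [if_neg he]
      have : T.eb Z (fun l => (π (l, false)).1) b y = k'.2 := by
        cases h1 : T.eb Z (fun l => (π (l, false)).1) b y <;> cases h2 : k.2 <;>
          cases h3 : k'.2 <;> simp_all
      rw [this]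
  constructor
  · intro y hyz
    rcases hyz with ⟨-, hpz, -⟩ | ⟨hy0, hpy, hsy⟩
    · -- y is the parent of z
      have hlt : y < z := by
        have := T.lt z hz0
        rwa [hpz] at this
      have hnb : T.Nb z y := Or.inr ⟨hz0, hpz⟩
      refine hin y hnb hlt.ne ?_ (by rw [← hpz]; exact hzps)
      rintro ⟨hy0, hpyZ, -⟩
      have hlt2 : T.par y < y := T.lt y hy0
      have hb1 : y ∈ T.ball 1 z := hnb.mem_ball
      have hb2 : T.par y ∈ T.ball 1 y := PTree.Nb.mem_ball (Or.inr ⟨hy0, rfl⟩)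
      exact hsep z hz (T.par y) hpyZ (ne_of_gt (hlt2.trans hlt)) (PTree.ball_trans hb1 hb2)
    · have hlt : z < y := by
        have := T.lt y hy0
        rwa [hpy] at this
      refine hin y (Or.inl ⟨hy0, hpy⟩) hlt.ne' ?_ hsy
      rintro ⟨-, -, h⟩
      rw [hsy] at h; simp at h
  · intro y hzy
    rcases hzy with ⟨hy0, hpy, hsy⟩ | ⟨-, hpz, hsz⟩
    · have hlt : z < y := by
        have := T.lt y hy0
        rwa [hpy] at this
      have hnb : T.Nb z y := Or.inl ⟨hy0, hpy⟩
      have hce : T.ce Z y = (z, true) := by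
        rw [t3a_ce_same (by
          rintro (h | ⟨-, h⟩)
          · exact hy0 h
          · rw [hsy] at h; simp at h) (by rw [hpy, hsy, hzs]), hpy]
      have hbz : b z = k''.1 := by
        rw [hb z, PTree.rule, if_pos (Finset.mem_biUnion.2 ⟨z, hz, T.self_mem_ball 1 z⟩),
          PTree.presc, if_pos hz]
      have hby : b y = k''.2 := by
        rw [hb y, PTree.rule, if_pos (hP y hnb), PTree.presc, if_neg (hnZ y hnb hlt.ne'),
          if_pos ⟨hy0, by rw [hpy]; exact hz, hsy⟩]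
      unfold PTree.lb
      rw [if_pos hsy, hby, PTree.eb, hce, if_pos rfl, hbz]
    · rw [hzs] at hsz; simp at hsz

end

end OT
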