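import Pool.Agent.Helper37.EX3.T3ADefs

/-!
# MP_2857a5_co : module T3A, masses of the blocks and averaging
-/

set_option autoImplicit false

open Finset
open scoped Classical

namespace OT

noncomputable section

variable {n : ℕ}

/-- The parent function of the components. -/
def PTree.pc (T : PTree n) (Z : Finset (Fin n)) (i : Fin n) : Option (Fin n) :=
  if (T.ce Z i).2 = true then some (T.ce Z i).1 else none

theorem t3a_pc_lt (T : PTree n) (Z : Finset (Fin n)) (i j : Fin n) (h : T.pc Z i = some j) :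
    j < i := by
  unfold PTree.pc at h
  split_ifs at h with h1
  · have := t3a_ce_lt h1
    simp only [Option.some.injEq] at h
    rwa [h] at this

theorem t3a_reach {T : PTree n} {Z F F₀ : Finset (Fin n)} (hF : F₀ ⊆ F) :
    ∀ (m : ℕ) (i : Fin n), (i : ℕ) ≤ m → i ∉ F →
      ∃ j, j ∉ F ∧ T.ce Z j = T.bl Z F i ∧ (i = j ∨ Reach (T.pc Z) F₀ j i) := by
  intro m
  induction m with
  | zero =>
    intro i hi hiF
    have h0 : T.ce Z i = (i, false) := t3a_ce_fresh (Or.inl (by omega))
    exact ⟨i, hiF, by rw [t3a_bl_neg (by simp [h0])], Or.inl rfl⟩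
  | succ m ih =>
    intro i hi hiF
    by_cases h : (T.ce Z i).2 = true ∧ (T.ce Z i).1 ∉ F
    · have hlt : ((T.ce Z i).1 : ℕ) < (i : ℕ) := t3a_ce_lt h.1
      obtain ⟨j, hj, hce, hr⟩ := ih (T.ce Z i).1 (by omega) h.2
      have hp : T.pc Z i = some (T.ce Z i).1 := by
        unfold PTree.pc
        rw [if_pos h.1]
      refine ⟨j, hj, by rw [hce, t3a_bl_pos h], Or.inr ?_⟩
      rcases hr with hr | hr
      · exact Reach.base i (by rw [hp, hr]) (fun hh => hiF (hF hh))
      · exact Reach.step i (T.ce Z i).1 hp (fun hh => hiF (hF hh)) hr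
    · exact ⟨i, hiF, (t3a_bl_neg h).symm, Or.inl rfl⟩

/-- The mass of a set of blocks. -/
theorem t3a_mass {T : PTree n} {Z F F₀ : Finset (Fin n)} {R : ℕ} (hF : F₀ ⊆ F)
    (hR : ∀ i, i ∉ F₀ → (univ.filter fun l => Reach (T.pc Z) F₀ i l).card < R)
    (Q : Fin n × Bool → Prop) :
    (univ.filter fun i => i ∉ F ∧ Q (T.bl Z F i)).card ≤
      (univ.filter fun j => j ∉ F ∧ Q (T.ce Z j)).card * R := by
  have hsub : (univ.filter fun i => i ∉ F ∧ Q (T.bl Z F i)) ⊆
      (univ.filter fun j => j ∉ F ∧ Q (T.ce Z j)).biUnion fun j =>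
        insert j (univ.filter fun l => Reach (T.pc Z) F₀ j l) := by
    intro i hi
    simp only [Finset.mem_filter, Finset.mem_univ, true_and] at hi
    obtain ⟨j, hj, hce, hr⟩ := t3a_reach (T := T) (Z := Z) hF (i : ℕ) i le_rfl hi.1
    rw [Finset.mem_biUnion]
    refine ⟨j, ?_, ?_⟩
    · simp only [Finset.mem_filter, Finset.mem_univ, true_and]
      exact ⟨hj, by rw [hce]; exact hi.2⟩
    · rw [Finset.mem_insert, Finset.mem_filter]
      rcases hr with hr | hr
      · exact Or.inl hr
      · exact Or.inr ⟨Finset.mem_univ _, hr⟩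
  refine (Finset.card_le_card hsub).trans (Finset.card_biUnion_le_card_mul _ _ _ ?_)
  intro j hj
  simp only [Finset.mem_filter, Finset.mem_univ, true_and] at hj
  have h1 := hR j (fun hh => hj.1 (hF hh))
  have h2 := Finset.card_insert_le j (univ.filter fun l => Reach (T.pc Z) F₀ j l)
  omega

/-- Averaging over the patterns of the blocks. -/
theorem t3a_avg (h : StAvg) (K : Type) [Fintype K] (Jk : Finset (Fin n))
    (bl : Fin n → Fin n × Bool) (w : Bool × Bool → ℝ) (δ : ℝ) (hδ : 0 ≤ δ)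
    (hm : ∀ B, (((univ.filter fun i => i ∉ Jk ∧ bl i = B).card : ℕ) : ℝ) ≤ δ * (n : ℝ))
    (hw : ∀ s, 0 ≤ w s) (hw1 : ∑ s, w s = 1) (g : K → Fin n → Bool × Bool → ℝ)
    (hg : ∀ k i s, |g k i s| ≤ 1) :
    ∃ π : Fin n × Bool → Bool × Bool, ∀ k,
      (∑ i ∈ univ.filter (fun i => i ∉ Jk), g k i (π (bl i)) -
        ∑ i ∈ univ.filter (fun i => i ∉ Jk), ∑ s, w s * g k i s) ^ 2 ≤
      4 * (Fintype.card K : ℝ) * δ * (n : ℝ) ^ 2 := by
  have key := h (Fin n × Bool)
    (fun B => (((univ.filter fun i => i ∉ Jk ∧ bl i = B).card : ℕ) : ℝ)) w (Fintype.card K)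
    (fun k B s => ∑ i ∈ univ.filter (fun i => i ∉ Jk ∧ bl i = B),
      g ((Fintype.equivFin K).symm k) i s) δ n hδ (fun B => by positivity) hm ?_ hw hw1 ?_
  · obtain ⟨π, hπ⟩ := key
    refine ⟨π, fun k => ?_⟩
    have hk := hπ (Fintype.equivFin K k)
    rw [Equiv.symm_apply_apply] at hk
    have e1 : ∑ B, ∑ i ∈ univ.filter (fun i => i ∉ Jk ∧ bl i = B), g k i (π B) =
        ∑ i ∈ univ.filter (fun i => i ∉ Jk), g k i (π (bl i)) := by
      rw [← Finset.sum_fiberwise_of_maps_to (g := bl) (t := univ) (fun _ _ => Finset.mem_univ _)]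
      refine Finset.sum_congr rfl fun B _ => ?_
      rw [Finset.filter_filter]
      refine Finset.sum_congr rfl fun i hi => ?_
      simp only [Finset.mem_filter, Finset.mem_univ, true_and] at hi
      rw [hi.2]
    have e2 : ∑ B, ∑ s, w s * ∑ i ∈ univ.filter (fun i => i ∉ Jk ∧ bl i = B), g k i s =
        ∑ i ∈ univ.filter (fun i => i ∉ Jk), ∑ s, w s * g k i s := by
      rw [← Finset.sum_fiberwise_of_maps_to (g := bl) (t := univ) (fun _ _ => Finset.mem_univ _)]
      refine Finset.sum_congr rfl fun B _ => ?_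
      rw [Finset.filter_filter, Finset.sum_comm]
      refine Finset.sum_congr rfl fun s _ => ?_
      rw [Finset.mul_sum]
    rw [e1, e2] at hk
    exact hk
  · rw [← Nat.cast_sum]
    have : ∑ B, (univ.filter fun i => i ∉ Jk ∧ bl i = B).card =
        (univ.filter fun i => i ∉ Jk).card := by
      rw [Finset.card_eq_sum_card_fiberwise (f := bl) (t := univ) (fun _ _ => Finset.mem_univ _)]
      refine Finset.sum_congr rfl fun B _ => ?_
      rw [Finset.filter_filter]
    rw [this]
    have h2 := Finset.card_filter_le (univ : Finset (Fin n)) (fun i => i ∉ Jk)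
    rw [Finset.card_univ, Fintype.card_fin] at h2
    exact_mod_cast h2
  · intro k B s
    refine (Finset.abs_sum_le_sum_abs _ _).trans ?_
    refine (Finset.sum_le_card_nsmul _ _ 1 fun i _ => hg _ i s).trans ?_
    simp

end

end OT
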